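import Pool.Agent.W571.DO.Gau
set_option autoImplicit false

/-!
# Project DO: assembly of the Gaussian case
-/

open MeasureTheory Filter Topology Set
open scoped ENNReal

namespace Pool.Agent.W571.DO

open Pool.Agent.W844.DO

/-- the Gaussian case -/
theorem thmA (hEX : S_EX) (hRES : S_RES) (hLT : S_LT) (hKK : S_K) (hPSI : S_PSI) : S_A := by
  rintro μ a σ W hμ1 hμ2 hσ hWc ⟨β₀, hW⟩ k
  have hLev : Lev μ := ⟨hμ1, hμ2⟩
  obtain ⟨-, -, k3, -, k5, k6, k7⟩ := hKK μ hLev
  have hpsi := hPSI μ hLev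
  set m0 : ℝ := (μ (Iic (-1))).toReal with hm0
  set c : ℝ := 2 / σ ^ 2 with hc
  have hσ2 : 0 < σ ^ 2 := by positivity
  have hc0 : 0 < c := by positivity
  set d : ℝ := a + m0 with hd
  set Kf : ℝ → ℝ := fun x => c * (K0 μ x - d) with hKfdef
  have hKf : ∀ β : ℝ, 0 < β → IntegrableOn (fun x => Real.exp (-(β * x)) * Kf x) (Ioi 0) ∧
      ∫ x in Ioi (0 : ℝ), Real.exp (-(β * x)) * Kf x =
        c * ((∫ x in Ioi (0 : ℝ), Real.exp (-(β * x)) * K0 μ x) - d * (1 / β)) := by
    intro β hβ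
    have h1 := (hpsi β hβ).1
    obtain ⟨h2, h3⟩ := exp_int hβ
    have h4 : (fun x => Real.exp (-(β * x)) * Kf x) =
        fun x => c * (Real.exp (-(β * x)) * K0 μ x - d * Real.exp (-(β * x))) := by
      funext x
      rw [hKfdef]
      ring
    rw [h4]
    refine ⟨(h1.sub (h2.const_mul d)).const_mul c, ?_⟩
    rw [integral_const_mul, integral_sub h1 (h2.const_mul d), integral_const_mul, h3]
  obtain ⟨β1, hβ1, hsm⟩ := small (fun β hβ => (hKf β hβ).1)
  set k0 : ℝ → ℝ := ca (fun x => Real.exp (-(β1 * x)) * Kf x) with hk0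
  have hk0c : Csl k0 := ca_csl _
  have hk0i : Integrable k0 := ca_int.2 (hKf β1 hβ1).1
  have hk0s : ∫ x, |k0 x| < 1 := by
    have h1 : Csl (fun x => |k0 x|) := by
      intro x hx
      change |k0 x| = 0
      rw [hk0c x hx, abs_zero]
    rw [csl_integral h1]
    refine lt_of_eq_of_lt ?_ hsm
    refine setIntegral_congr_fun measurableSet_Ioi (fun x hx => ?_)
    change |k0 x| = _
    rw [hk0, ca_pos _ hx]
  obtain ⟨r0, hr0c, hr0i, hr0⟩ := hEX k0 hk0c hk0i hk0s
  have hshift : ∀ t : ℝ, ∀ᵐ x, Real.exp (-(t * x)) * r0 x +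
      cv (fun y => Real.exp (-(t * y)) * k0 y) (fun y => Real.exp (-(t * y)) * r0 y) x =
        Real.exp (-(t * x)) * k0 x := by
    intro t
    filter_upwards [hr0] with x hx
    rw [cv_exp, ← mul_add, hx]
  have hexpc : ∀ t : ℝ, Continuous (fun x : ℝ => Real.exp (-(t * x))) := by
    intro t
    fun_prop
  have hki : ∀ t : ℝ, 0 ≤ t → Integrable (fun x => Real.exp (-(t * x)) * k0 x) :=
    fun t ht => mul_bdd hk0i hk0c (hexpc t) 1 (fun x hx => exp_le_one ht hx)
  have hri : ∀ t : ℝ, 0 ≤ t → Integrable (fun x => Real.exp (-(t * x)) * r0 x) :=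
    fun t ht => mul_bdd hr0i hr0c (hexpc t) 1 (fun x hx => exp_le_one ht hx)
  -- data for the resolvent statement
  set β2 : ℝ := β1 + 1 with hβ2
  have hβ2p : 0 < β2 := by positivity
  set kk : ℝ → ℝ := fun x => Real.exp (-(1 * x)) * k0 x with hkk
  set rr : ℝ → ℝ := fun x => Real.exp (-(1 * x)) * r0 x with hrr
  have hkkv : ∀ x, 0 < x → kk x = Real.exp (-(β2 * x)) * (c * (K0 μ x - d)) := by
    intro x hx
    have h1 : Real.exp (-(β2 * x)) = Real.exp (-(1 * x)) * Real.exp (-(β1 * x)) := by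
      rw [← Real.exp_add]
      congr 1
      rw [hβ2]
      ring
    rw [hkk]
    change Real.exp (-(1 * x)) * k0 x = _
    rw [hk0, ca_pos _ hx, h1, mul_assoc]
  have hxkk : Integrable (fun x => x * kk x) := by
    have h1 := mul_bdd (w := fun x : ℝ => x * Real.exp (-(1 * x))) hk0i hk0c
      (by fun_prop) (1 / 1) (fun x hx => x_exp_le one_pos hx)
    refine h1.congr (Filter.Eventually.of_forall (fun x => ?_))
    change x * Real.exp (-(1 * x)) * k0 x = x * (Real.exp (-(1 * x)) * k0 x)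
    ring
  have hxrr : Integrable (fun x => x * rr x) := by
    have h1 := mul_bdd (w := fun x : ℝ => x * Real.exp (-(1 * x))) hr0i hr0c
      (by fun_prop) (1 / 1) (fun x hx => x_exp_le one_pos hx)
    refine h1.congr (Filter.Eventually.of_forall (fun x => ?_))
    change x * Real.exp (-(1 * x)) * r0 x = x * (Real.exp (-(1 * x)) * r0 x)
    ring
  have hI4 : IntegrableOn (fun x => x * (Real.exp (-(β2 * x)) * (c * (K0 μ x - d)))) (Ioi 0) := by
    refine (integrableOn_congr_fun ?_ measurableSet_Ioi).1 hxkk.integrableOn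
    intro x hx
    change x * kk x = _
    rw [hkkv x hx]
  obtain ⟨q1, q2⟩ := k1_facts c d β2 hβ2p (hpsi β2 hβ2p).1 k3 k5 k6 hI4
  set k1 : ℝ → ℝ := ca (fun x => Real.exp (-(β2 * x)) * (c * (K0 μ x - x * tl μ x - d)) -
      β2 * (x * (Real.exp (-(β2 * x)) * (c * (K0 μ x - d))))) with hk1
  obtain ⟨ρ, hρc, hρe, hρs⟩ := hRES kk rr k1 (csl_mul hk0c _) (csl_mul hr0c _) (ca_csl _)
    (hki 1 zero_le_one) (hri 1 zero_le_one) (ca_int.2 q1) hxkk hxrr (hshift 1) (by
      intro x hx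
      rw [hkkv x hx, q2 x hx, intervalIntegral.integral_of_le hx.le,
        intervalIntegral.integral_of_le hx.le]
      refine setIntegral_congr_fun measurableSet_Ioc (fun y hy => ?_)
      rw [hk1, ca_pos _ hy.1])
  -- the resolvent
  set Rf : ℝ → ℝ := fun x => Real.exp (β1 * x) * r0 x with hRf
  set Rt : ℝ → ℝ := fun x => Real.exp (β2 * x) * ρ x with hRt
  have hRfc : Csl Rf := csl_mul hr0c _
  have hRtc : ContinuousOn Rt (Ioi 0) :=
    (by fun_prop : Continuous (fun x : ℝ => Real.exp (β2 * x))).continuousOn.mul hρc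
  have hRe : ∀ᵐ x, 0 < x → Rf x = Rt x := by
    filter_upwards [hρe] with x hx hx0
    have h1 : Real.exp (-(1 * x)) * r0 x = ρ x := hx hx0
    change Real.exp (β1 * x) * r0 x = Real.exp (β2 * x) * ρ x
    rw [← h1, ← mul_assoc, ← Real.exp_add]
    congr 2
    rw [hβ2]
    ring
  have hII : ∀ x, IntervalIntegrable Rf volume 0 x := by
    intro x
    exact (hr0i.intervalIntegrable).continuousOn_mul
      (by fun_prop : Continuous (fun x : ℝ => Real.exp (β1 * x))).continuousOn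
  have hII1 : ∀ x, IntervalIntegrable (fun y => y * Rf y) volume 0 x := by
    intro x
    exact (hII x).continuousOn_mul continuousOn_id
  set S : ℝ → ℝ := fun z => ∫ y in (0 : ℝ)..z, Rf y with hS
  set S1 : ℝ → ℝ := fun z => ∫ y in (0 : ℝ)..z, y * Rf y with hS1
  have hSd : ∀ x, 0 < x → HasDerivAt S (Rt x) x := fun x hx => hasDeriv_prim hRtc hII hRe hx
  have hS1d : ∀ x, 0 < x → HasDerivAt S1 (x * Rt x) x := by
    intro x hx
    refine hasDeriv_prim (G := fun x => x * Rt x) (continuousOn_id.mul hRtc) hII1 ?_ hx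
    filter_upwards [hRe] with y hy hy0
    rw [hy hy0]
  set V : ℝ → ℝ := fun x => c * (x - (x * S x - S1 x)) with hV
  have hV1 : ∀ x, 0 < x → HasDerivAt V (c * (1 - S x)) x := by
    intro x hx
    have h1 := (((hasDerivAt_id x).sub (((hasDerivAt_id x).mul (hSd x hx)).sub
      (hS1d x hx))).const_mul c)
    refine h1.congr_deriv ?_
    simp only [id]
    ring
  have hV2 : ∀ x, 0 < x → HasDerivAt (fun x => c * (1 - S x)) (-c * Rt x) x := by
    intro x hx
    have h1 := ((hasDerivAt_const x (1 : ℝ)).sub (hSd x hx)).const_mul c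
    refine h1.congr_deriv ?_
    ring
  have hVc : ContinuousOn V (Ioi 0) := fun x hx => (hV1 x hx).continuousAt.continuousWithinAt
  -- Laplace transform
  have hLV : ∀ β : ℝ, β1 < β → IntegrableOn (fun x => Real.exp (-(β * x)) * V x) (Ioi 0) ∧
      ∫ x in Ioi (0 : ℝ), Real.exp (-(β * x)) * V x =
        1 / (-(a * β) + σ ^ 2 * β ^ 2 / 2 +
          ∫ x, (Real.exp (β * x) - 1 - (Set.Ioi (-1 : ℝ)).indicator (fun y => β * y) x) ∂μ) := by
    intro β hβ
    have hβp : 0 < β := hβ1.trans hβ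
    have ht : 0 ≤ β - β1 := by linarith
    have hRfe : (fun x => Real.exp (-(β * x)) * Rf x) =
        fun x => Real.exp (-((β - β1) * x)) * r0 x := by
      funext x
      change Real.exp (-(β * x)) * (Real.exp (β1 * x) * r0 x) = _
      rw [← mul_assoc, ← Real.exp_add]
      congr 2
      ring
    have hRi : Integrable (fun x => Real.exp (-(β * x)) * Rf x) := by
      rw [hRfe]
      exact hri _ ht
    obtain ⟨l1, l2⟩ := lap_double hRfc hβp hRi hII
    obtain ⟨x1, x2⟩ := x_exp_int hβp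
    set Rh : ℝ := ∫ x, Real.exp (-(β * x)) * Rf x with hRh
    have hVe : (fun x => Real.exp (-(β * x)) * V x) = fun x => c * (x * Real.exp (-(β * x)) -
        Real.exp (-(β * x)) * (x * (∫ y in (0 : ℝ)..x, Rf y) - ∫ y in (0 : ℝ)..x, y * Rf y)) := by
      funext x
      change Real.exp (-(β * x)) * (c * (x - (x * (∫ y in (0 : ℝ)..x, Rf y) -
        ∫ y in (0 : ℝ)..x, y * Rf y))) = _
      ring
    rw [hVe]
    refine ⟨(x1.sub l1).const_mul c, ?_⟩
    rw [integral_const_mul, integral_sub x1 l1, x2, l2, (hpsi β hβp).2]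
    -- the equation for the transforms
    obtain ⟨c1, c2⟩ := cv_integral (hki _ ht) (hri _ ht)
    have e1 : (∫ x, Real.exp (-((β - β1) * x)) * r0 x) +
        (∫ x, Real.exp (-((β - β1) * x)) * k0 x) * (∫ x, Real.exp (-((β - β1) * x)) * r0 x) =
        ∫ x, Real.exp (-((β - β1) * x)) * k0 x := by
      rw [← c2, ← integral_add (hri _ ht) c1]
      exact integral_congr_ae (hshift (β - β1))
    have e2 : (∫ x, Real.exp (-((β - β1) * x)) * r0 x) = Rh := by
      rw [hRh, hRfe]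
    have e3 : (∫ x, Real.exp (-((β - β1) * x)) * k0 x) =
        c * ((∫ x in Ioi (0 : ℝ), Real.exp (-(β * x)) * K0 μ x) - d * (1 / β)) := by
      rw [← (hKf β hβp).2, csl_integral (csl_mul hk0c _)]
      refine setIntegral_congr_fun measurableSet_Ioi (fun x hx => ?_)
      change Real.exp (-((β - β1) * x)) * k0 x = _
      rw [hk0, ca_pos _ hx, ← mul_assoc, ← Real.exp_add]
      congr 2
      ring
    rw [e2, e3] at e1
    set Kh0 : ℝ := ∫ x in Ioi (0 : ℝ), Real.exp (-(β * x)) * K0 μ x with hKh0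
    have hσc : σ ^ 2 = 2 / c := by
      rw [hc]
      field_simp
    have e4 : -(a * β) + σ ^ 2 * β ^ 2 / 2 + (β ^ 2 * Kh0 - β * m0) =
        β ^ 2 / c * (1 + c * (Kh0 - d * (1 / β))) := by
      rw [hσc, hd]
      field_simp
      ring
    rw [e4]
    have e5 : (1 + c * (Kh0 - d * (1 / β))) * (1 - Rh) = 1 := by
      linear_combination -e1
    have e6 : 1 + c * (Kh0 - d * (1 / β)) ≠ 0 := by
      intro h
      rw [h, zero_mul] at e5
      exact zero_ne_one e5
    generalize c * (Kh0 - d * (1 / β)) = Y at e5 e6 ⊢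
    have e7 : 1 - Rh = 1 / (1 + Y) := by
      rw [eq_div_iff e6, mul_comm]
      exact e5
    have e8 : c * (1 / β ^ 2 - Rh * (1 / β ^ 2)) = c / β ^ 2 * (1 - Rh) := by
      field_simp
    rw [e8, e7]
    field_simp
  have hWV : ∀ x, 0 < x → W x = V x := by
    refine hLT W V hWc hVc ⟨max β₀ β1, fun β hβ => ?_⟩
    obtain ⟨w1, w2⟩ := hW β ((le_max_left _ _).trans_lt hβ)
    obtain ⟨v1, v2⟩ := hLV β ((le_max_right _ _).trans_lt hβ)
    exact ⟨w1, v1, w2.trans v2.symm⟩
  -- smoothness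
  have s1 : ContDiffOn ℝ (((k + 3 : ℕ) : ℕ∞) : WithTop ℕ∞) W (Ioi 0) ↔
      ContDiffOn ℝ (((k + 3 : ℕ) : ℕ∞) : WithTop ℕ∞) V (Ioi 0) :=
    ⟨fun h => h.congr (fun x hx => (hWV x hx).symm), fun h => h.congr (fun x hx => hWV x hx)⟩
  have s2 := cd_succ hV1 (k + 2)
  have s3 := cd_succ hV2 (k + 1)
  have s4 : ContDiffOn ℝ (((k + 1 : ℕ) : ℕ∞) : WithTop ℕ∞) (fun x => -c * Rt x) (Ioi 0) ↔
      ContDiffOn ℝ (((k + 1 : ℕ) : ℕ∞) : WithTop ℕ∞) ρ (Ioi 0) := by
    constructor
    · intro h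
      refine cd_aff (e := fun x => -c⁻¹ * Real.exp (-(β2 * x))) (b := 0) (by fun_prop) h ?_
      intro x _
      change ρ x = -c⁻¹ * Real.exp (-(β2 * x)) * (-c * (Real.exp (β2 * x) * ρ x)) + 0
      have h1 : Real.exp (-(β2 * x)) * Real.exp (β2 * x) = 1 := by
        rw [← Real.exp_add, neg_add_cancel, Real.exp_zero]
      have h2 : c⁻¹ * c = 1 := inv_mul_cancel₀ hc0.ne'
      linear_combination (-ρ x) * c⁻¹ * c * h1 - ρ x * h2
    · intro h
      refine cd_aff (e := fun x => -c * Real.exp (β2 * x)) (b := 0) (by fun_prop) h ?_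
      intro x _
      change -c * (Real.exp (β2 * x) * ρ x) = -c * Real.exp (β2 * x) * ρ x + 0
      ring
  have s5 := hρs (k + 1)
  have s6 : ContDiffOn ℝ (((k + 1 : ℕ) : ℕ∞) : WithTop ℕ∞) kk (Ioi 0) ↔
      ContDiffOn ℝ (((k + 1 : ℕ) : ℕ∞) : WithTop ℕ∞) (K0 μ) (Ioi 0) := by
    constructor
    · intro h
      refine cd_aff (e := fun x => c⁻¹ * Real.exp (β2 * x)) (b := d) (by fun_prop) h ?_
      intro x hx
      rw [hkkv x hx]
      have h1 : Real.exp (-(β2 * x)) * Real.exp (β2 * x) = 1 := by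
        rw [← Real.exp_add, neg_add_cancel, Real.exp_zero]
      have h2 : c⁻¹ * c = 1 := inv_mul_cancel₀ hc0.ne'
      linear_combination -(K0 μ x - d) * c⁻¹ * c * h1 - (K0 μ x - d) * h2
    · intro h
      have h0 : ContDiffOn ℝ (((k + 1 : ℕ) : ℕ∞) : WithTop ℕ∞) (fun x => K0 μ x - d) (Ioi 0) :=
        h.sub contDiffOn_const
      refine cd_aff (e := fun x => c * Real.exp (-(β2 * x))) (b := 0) (by fun_prop) h0 ?_
      intro x hx
      rw [hkkv x hx]
      ring
  exact s1.trans (s2.trans (s3.trans (s4.trans (s5.symm.trans (s6.trans (k7 k))))))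

end Pool.Agent.W571.DO
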