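import Pool.Agent.W571.DO.Help
set_option autoImplicit false

/-!
# Project DO: the Gaussian case
-/

open MeasureTheory Filter Topology Set
open scoped ENNReal

namespace Pool.Agent.W571.DO

open Pool.Agent.W844.DO

theorem tl_meas (μ : Measure ℝ) : Measurable (tl μ) := by
  unfold tl
  have h1 : Antitone (fun x : ℝ => μ (Iio (-x))) := by
    intro x y hxy
    exact measure_mono (fun z hz => by
      rw [Set.mem_Iio] at hz ⊢
      linarith)
  exact h1.measurable.ennreal_toReal

/-- the derivative of `x k x` -/
theorem k1_facts {μ : Measure ℝ} (c d t : ℝ) (ht : 0 < t)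
    (hpsi : IntegrableOn (fun x => Real.exp (-(t * x)) * K0 μ x) (Ioi 0))
    (h1 : IntegrableOn (fun y => y * tl μ y) (Ioc 0 1))
    (h2 : ∀ x, 1 ≤ x → 0 ≤ tl μ x ∧ tl μ x ≤ tl μ 1)
    (h3 : ∀ x, 0 < x → IntervalIntegrable (fun y => K0 μ y - y * tl μ y) volume 0 x ∧
      x * K0 μ x = ∫ y in (0 : ℝ)..x, (K0 μ y - y * tl μ y))
    (h4 : IntegrableOn (fun x => x * (Real.exp (-(t * x)) * (c * (K0 μ x - d)))) (Ioi 0)) :
    IntegrableOn (fun x => Real.exp (-(t * x)) * (c * (K0 μ x - x * tl μ x - d)) -
      t * (x * (Real.exp (-(t * x)) * (c * (K0 μ x - d))))) (Ioi 0) ∧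
    ∀ x, 0 < x → x * (Real.exp (-(t * x)) * (c * (K0 μ x - d))) =
      ∫ y in (0 : ℝ)..x, (Real.exp (-(t * y)) * (c * (K0 μ y - y * tl μ y - d)) -
        t * (y * (Real.exp (-(t * y)) * (c * (K0 μ y - d))))) := by
  constructor
  · -- integrability
    have e1 : IntegrableOn (fun x => Real.exp (-(t * x)) * (x * tl μ x)) (Ioi 0) := by
      rw [← Ioc_union_Ioi_eq_Ioi (zero_le_one' ℝ)]
      refine IntegrableOn.union ?_ ?_
      · have hm : AEStronglyMeasurable (fun x => Real.exp (-(t * x)) * (x * tl μ x))
            (volume.restrict (Ioc 0 1)) := by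
          have := tl_meas μ
          exact (by fun_prop : Measurable fun x => Real.exp (-(t * x)) * (x * tl μ x)
            ).aestronglyMeasurable
        refine Integrable.mono h1 hm ?_
        refine (ae_restrict_iff' measurableSet_Ioc).2 (Filter.Eventually.of_forall (fun x hx => ?_))
        rw [norm_mul, Real.norm_eq_abs (Real.exp _)]
        exact mul_le_of_le_one_left (norm_nonneg _) (exp_le_one ht.le hx.1)
      · have hm : AEStronglyMeasurable (fun x => Real.exp (-(t * x)) * (x * tl μ x))
            (volume.restrict (Ioi 1)) := by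
          have := tl_meas μ
          exact (by fun_prop : Measurable fun x => Real.exp (-(t * x)) * (x * tl μ x)
            ).aestronglyMeasurable
        have hb : IntegrableOn (fun x : ℝ => tl μ 1 * (x * Real.exp (-(t * x)))) (Ioi 1) :=
          ((x_exp_int ht).1.mono_set (Ioi_subset_Ioi zero_le_one)).const_mul _
        refine Integrable.mono hb hm ?_
        refine (ae_restrict_iff' measurableSet_Ioi).2 (Filter.Eventually.of_forall (fun x hx => ?_))
        rw [Set.mem_Ioi] at hx
        obtain ⟨g1, g2⟩ := h2 x hx.le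
        have g3 : 0 ≤ tl μ 1 := g1.trans g2
        have g4 := (Real.exp_pos (-(t * x))).le
        have g5 : 0 ≤ x := by linarith
        rw [Real.norm_eq_abs, Real.norm_eq_abs, abs_of_nonneg (by positivity),
          abs_of_nonneg (by positivity)]
        calc Real.exp (-(t * x)) * (x * tl μ x) = tl μ x * (x * Real.exp (-(t * x))) := by ring
          _ ≤ tl μ 1 * (x * Real.exp (-(t * x))) := mul_le_mul_of_nonneg_right g2 (by positivity)
    have e2 : IntegrableOn (fun x => c * (Real.exp (-(t * x)) * K0 μ x) -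
        c * (Real.exp (-(t * x)) * (x * tl μ x)) - (c * d) * Real.exp (-(t * x))) (Ioi 0) :=
      ((hpsi.const_mul c).sub (e1.const_mul c)).sub ((exp_int ht).1.const_mul (c * d))
    refine (e2.sub (h4.const_mul t)).congr (Filter.Eventually.of_forall (fun x => ?_))
    change c * (Real.exp (-(t * x)) * K0 μ x) -
        c * (Real.exp (-(t * x)) * (x * tl μ x)) - (c * d) * Real.exp (-(t * x)) -
        t * (x * (Real.exp (-(t * x)) * (c * (K0 μ x - d)))) = _
    ring
  · intro x hx
    obtain ⟨i1, i2⟩ := h3 x hx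
    set gg : ℝ → ℝ := fun z => c * (K0 μ z - z * tl μ z - d) with hgg
    set G : ℝ → ℝ := fun y => ∫ z in (0 : ℝ)..y, gg z with hG
    have hggi : IntervalIntegrable gg volume 0 x :=
      (i1.sub intervalIntegrable_const).const_mul c
    have hGv : ∀ y, 0 < y → G y = y * (c * (K0 μ y - d)) := by
      intro y hy
      obtain ⟨j1, j2⟩ := h3 y hy
      rw [hG]
      change ∫ z in (0 : ℝ)..y, c * (K0 μ z - z * tl μ z - d) = _
      rw [intervalIntegral.integral_const_mul, intervalIntegral.integral_sub j1
        intervalIntegrable_const, ← j2, intervalIntegral.integral_const, smul_eq_mul]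
      ring
    have hf : AbsolutelyContinuousOnInterval (fun y : ℝ => Real.exp (-(t * y))) 0 x := by
      refine ContDiffOn.absolutelyContinuousOnInterval ?_
      exact (by fun_prop : ContDiff ℝ 1 (fun y : ℝ => Real.exp (-(t * y)))).contDiffOn
    have hg : AbsolutelyContinuousOnInterval G 0 x :=
      hggi.absolutelyContinuousOnInterval_intervalIntegral (by simp)
    have h5 := hf.integral_deriv_mul_eq_sub hg
    have hG0 : G 0 = 0 := intervalIntegral.integral_same
    rw [hG0, mul_zero, sub_zero, hGv x hx] at h5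
    have h6 : x * (Real.exp (-(t * x)) * (c * (K0 μ x - d))) =
        Real.exp (-(t * x)) * (x * (c * (K0 μ x - d))) := by ring
    rw [h6, ← h5]
    refine intervalIntegral.integral_congr_ae ?_
    filter_upwards [hggi.ae_hasDerivAt_integral] with y hy hy'
    have hy2 : y ∈ Set.uIcc 0 x := Set.uIoc_subset_uIcc hy'
    rw [Set.uIoc_of_le hx.le] at hy'
    have h7 : deriv G y = gg y := (hy hy2 0 (by simp)).deriv
    have h8 : deriv (fun y : ℝ => Real.exp (-(t * y))) y = -t * Real.exp (-(t * y)) := by
      have : HasDerivAt (fun y : ℝ => Real.exp (-(t * y))) (Real.exp (-(t * y)) * (-(t * 1))) y :=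
        (((hasDerivAt_id y).const_mul t).neg).exp
      rw [this.deriv]
      ring
    rw [h7, h8, hGv y hy'.1]
    change -t * Real.exp (-(t * y)) * (y * (c * (K0 μ y - d))) +
      Real.exp (-(t * y)) * (c * (K0 μ y - y * tl μ y - d)) = _
    ring

/-- Laplace transform of the double primitive -/
theorem lap_double {R : ℝ → ℝ} (hR : Csl R) {β : ℝ} (hβ : 0 < β)
    (hi : Integrable (fun x => Real.exp (-(β * x)) * R x))
    (hII : ∀ x, IntervalIntegrable R volume 0 x) :
    IntegrableOn (fun x => Real.exp (-(β * x)) *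
      (x * (∫ y in (0 : ℝ)..x, R y) - ∫ y in (0 : ℝ)..x, y * R y)) (Ioi 0) ∧
    ∫ x in Ioi (0 : ℝ), Real.exp (-(β * x)) *
      (x * (∫ y in (0 : ℝ)..x, R y) - ∫ y in (0 : ℝ)..x, y * R y) =
      (∫ x, Real.exp (-(β * x)) * R x) * (1 / β ^ 2) := by
  set u : ℝ → ℝ := fun x => Real.exp (-(β * x)) * R x with hu
  set v : ℝ → ℝ := ca (fun x => x * Real.exp (-(β * x))) with hv
  have huc : Csl u := csl_mul hR _
  have hvc : Csl v := ca_csl _
  have hvi : Integrable v := ca_int.2 (x_exp_int hβ).1
  have hvv : ∫ x, v x = 1 / β ^ 2 := by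
    rw [hv, ca_integral]
    exact (x_exp_int hβ).2
  obtain ⟨c1, c2⟩ := cv_integral hi hvi
  have key : ∀ x, 0 < x → cv u v x = Real.exp (-(β * x)) *
      (x * (∫ y in (0 : ℝ)..x, R y) - ∫ y in (0 : ℝ)..x, y * R y) := by
    intro x hx
    have hv2 : ∀ z : ℝ, 0 ≤ z → v z = z * Real.exp (-(β * z)) := by
      intro z hz
      rcases eq_or_lt_of_le hz with h | h
      · rw [← h, hvc 0 le_rfl, zero_mul]
      · exact ca_pos _ h
    have h1 : cv u v x = ∫ y in Ioc 0 x, u y * v (x - y) := by
      unfold cv
      refine (setIntegral_eq_integral_of_forall_compl_eq_zero (fun y hy => ?_)).symm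
      rw [Set.mem_Ioc, not_and_or, not_lt, not_le] at hy
      rcases hy with hy | hy
      · rw [huc y hy, zero_mul]
      · rw [hvc (x - y) (by linarith), mul_zero]
    have h2 : ∫ y in Ioc 0 x, u y * v (x - y) =
        ∫ y in Ioc 0 x, Real.exp (-(β * x)) * (x * R y - y * R y) := by
      refine setIntegral_congr_fun measurableSet_Ioc (fun y hy => ?_)
      change u y * v (x - y) = Real.exp (-(β * x)) * (x * R y - y * R y)
      rw [hv2 (x - y) (by linarith [hy.2]), hu]
      have h3 : Real.exp (-(β * x)) = Real.exp (-(β * y)) * Real.exp (-(β * (x - y))) := by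
        rw [← Real.exp_add]
        congr 1
        ring
      change Real.exp (-(β * y)) * R y * ((x - y) * Real.exp (-(β * (x - y)))) = _
      rw [h3]
      ring
    have h4 : IntervalIntegrable (fun y => y * R y) volume 0 x :=
      (hII x).continuousOn_mul continuousOn_id
    rw [h1, h2, ← intervalIntegral.integral_of_le hx.le, intervalIntegral.integral_const_mul,
      intervalIntegral.integral_sub ((hII x).const_mul x) h4, intervalIntegral.integral_const_mul]
  constructor
  · refine (integrableOn_congr_fun ?_ measurableSet_Ioi).1 c1.integrableOn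
    intro x hx
    exact key x hx
  · rw [← hvv, ← c2, csl_integral (cv_csl huc hvc)]
    refine setIntegral_congr_fun measurableSet_Ioi (fun x hx => ?_)
    exact (key x hx).symm

end Pool.Agent.W571.DO
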