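import Pool.Agent.W844.DO.Defs
set_option autoImplicit false

/-!
# Project DO: auxiliary facts for the Gaussian case
-/

open MeasureTheory Filter Topology Set
open scoped ENNReal

namespace Pool.Agent.W571.DO

open Pool.Agent.W844.DO

/-- causal part -/
noncomputable def ca (u : ℝ → ℝ) : ℝ → ℝ := (Ioi 0).indicator u

theorem ca_csl (u : ℝ → ℝ) : Csl (ca u) := by
  intro x hx
  refine indicator_of_notMem ?_ _
  rw [Set.mem_Ioi]
  linarith

theorem ca_pos (u : ℝ → ℝ) {x : ℝ} (hx : 0 < x) : ca u x = u x := indicator_of_mem hx _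

theorem ca_int {u : ℝ → ℝ} : Integrable (ca u) ↔ IntegrableOn u (Ioi 0) :=
  integrable_indicator_iff measurableSet_Ioi

theorem ca_integral (u : ℝ → ℝ) : ∫ x, ca u x = ∫ x in Ioi (0 : ℝ), u x :=
  integral_indicator measurableSet_Ioi

theorem ca_self {u : ℝ → ℝ} (h : Csl u) : ca u = u := by
  funext x
  rcases le_or_gt x 0 with h1 | h1
  · rw [ca_csl u x h1, h x h1]
  · exact ca_pos u h1

theorem csl_integral {u : ℝ → ℝ} (h : Csl u) : ∫ x, u x = ∫ x in Ioi (0 : ℝ), u x := by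
  rw [← ca_integral, ca_self h]

theorem csl_mul {u : ℝ → ℝ} (h : Csl u) (w : ℝ → ℝ) : Csl (fun x => w x * u x) := by
  intro x hx
  change w x * u x = 0
  rw [h x hx, mul_zero]

theorem mul_bdd {u w : ℝ → ℝ} (hu : Integrable u) (hc : Csl u) (hw : Continuous w) (C : ℝ)
    (hb : ∀ x, 0 < x → |w x| ≤ C) : Integrable (fun x => w x * u x) := by
  refine Integrable.mono' (hu.norm.const_mul C)
    (hw.aestronglyMeasurable.mul hu.aestronglyMeasurable) (Filter.Eventually.of_forall (fun x => ?_))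
  rw [norm_mul, Real.norm_eq_abs, Real.norm_eq_abs]
  rcases le_or_gt x 0 with h1 | h1
  · rw [hc x h1]
    simp
  · exact mul_le_mul_of_nonneg_right (hb x h1) (abs_nonneg _)

theorem exp_le_one {t x : ℝ} (ht : 0 ≤ t) (hx : 0 < x) : |Real.exp (-(t * x))| ≤ 1 := by
  rw [abs_of_nonneg (Real.exp_pos _).le]
  refine Real.exp_le_one_iff.2 ?_
  have := mul_nonneg ht hx.le
  linarith

theorem x_exp_le {t x : ℝ} (ht : 0 < t) (hx : 0 < x) : |x * Real.exp (-(t * x))| ≤ 1 / t := by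
  rw [abs_of_nonneg (mul_nonneg hx.le (Real.exp_pos _).le), Real.exp_neg, ← div_eq_mul_inv,
    div_le_div_iff₀ (Real.exp_pos _) ht]
  have := Real.add_one_le_exp (t * x)
  linarith

theorem cv_exp (t : ℝ) (u v : ℝ → ℝ) (x : ℝ) :
    cv (fun y => Real.exp (-(t * y)) * u y) (fun y => Real.exp (-(t * y)) * v y) x =
      Real.exp (-(t * x)) * cv u v x := by
  unfold cv
  rw [← integral_const_mul]
  refine integral_congr_ae (Filter.Eventually.of_forall (fun y => ?_))
  change Real.exp (-(t * y)) * u y * (Real.exp (-(t * (x - y))) * v (x - y)) =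
    Real.exp (-(t * x)) * (u y * v (x - y))
  have h1 : Real.exp (-(t * x)) = Real.exp (-(t * y)) * Real.exp (-(t * (x - y))) := by
    rw [← Real.exp_add]
    congr 1
    ring
  rw [h1]
  ring

theorem cv_integral {u v : ℝ → ℝ} (hu : Integrable u) (hv : Integrable v) :
    Integrable (cv u v) ∧ ∫ x, cv u v x = (∫ x, u x) * ∫ x, v x := by
  have h1 := hu.integrable_convolution (ContinuousLinearMap.mul ℝ ℝ) hv
  have h2 := integral_convolution (ContinuousLinearMap.mul ℝ ℝ) hu hv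
  exact ⟨h1, h2⟩

theorem cv_csl {u v : ℝ → ℝ} (hu : Csl u) (hv : Csl v) : Csl (cv u v) := by
  intro x hx
  unfold cv
  refine integral_eq_zero_of_ae (Filter.Eventually.of_forall (fun y => ?_))
  change u y * v (x - y) = 0
  rcases le_or_gt y 0 with h1 | h1
  · rw [hu y h1, zero_mul]
  · rw [hv (x - y) (by linarith), mul_zero]

theorem x_exp_int {β : ℝ} (hβ : 0 < β) :
    IntegrableOn (fun x : ℝ => x * Real.exp (-(β * x))) (Ioi 0) ∧
      ∫ x in Ioi (0 : ℝ), x * Real.exp (-(β * x)) = 1 / β ^ 2 := by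
  have h1 := Real.integral_rpow_mul_exp_neg_mul_Ioi (a := 2) (by norm_num) hβ
  have h2 : ∫ x in Ioi (0 : ℝ), x * Real.exp (-(β * x)) = 1 / β ^ 2 := by
    rw [Real.Gamma_two, mul_one] at h1
    have h3 : (1 / β) ^ (2 : ℝ) = 1 / β ^ 2 := by
      rw [show (2 : ℝ) = ((2 : ℕ) : ℝ) by norm_num, Real.rpow_natCast]
      field_simp
    rw [h3] at h1
    rw [← h1]
    refine setIntegral_congr_fun measurableSet_Ioi (fun x _ => ?_)
    change x * Real.exp (-(β * x)) = x ^ ((2 : ℝ) - 1) * Real.exp (-(β * x))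
    rw [show (2 : ℝ) - 1 = 1 by norm_num, Real.rpow_one]
  refine ⟨?_, h2⟩
  refine Integrable.of_integral_ne_zero ?_
  rw [h2]
  positivity

theorem exp_int {β : ℝ} (hβ : 0 < β) :
    IntegrableOn (fun x : ℝ => Real.exp (-(β * x))) (Ioi 0) ∧
      ∫ x in Ioi (0 : ℝ), Real.exp (-(β * x)) = 1 / β := by
  have h1 := Real.integral_rpow_mul_exp_neg_mul_Ioi (a := 1) (by norm_num) hβ
  have h2 : ∫ x in Ioi (0 : ℝ), Real.exp (-(β * x)) = 1 / β := by
    rw [Real.Gamma_one, mul_one, Real.rpow_one] at h1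
    rw [← h1]
    refine setIntegral_congr_fun measurableSet_Ioi (fun x _ => ?_)
    change Real.exp (-(β * x)) = x ^ ((1 : ℝ) - 1) * Real.exp (-(β * x))
    rw [show (1 : ℝ) - 1 = 0 by norm_num, Real.rpow_zero, one_mul]
  refine ⟨?_, h2⟩
  refine Integrable.of_integral_ne_zero ?_
  rw [h2]
  positivity

/-- the transform is small at large arguments -/
theorem small {u : ℝ → ℝ}
    (hu : ∀ β : ℝ, 0 < β → IntegrableOn (fun x => Real.exp (-(β * x)) * u x) (Ioi 0)) :
    ∃ β : ℝ, 0 < β ∧ ∫ x in Ioi (0 : ℝ), |Real.exp (-(β * x)) * u x| < 1 := by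
  have h1 : Tendsto (fun n : ℕ => ∫ x in Ioi (0 : ℝ), |Real.exp (-(((n : ℝ) + 1) * x)) * u x|)
      atTop (𝓝 (∫ x in Ioi (0 : ℝ), (0 : ℝ))) := by
    refine tendsto_integral_filter_of_dominated_convergence
      (fun x => |Real.exp (-(1 * x)) * u x|) ?_ ?_ ?_ ?_
    · refine Filter.Eventually.of_forall (fun n => ?_)
      exact (hu ((n : ℝ) + 1) (by positivity)).aestronglyMeasurable.norm
    · refine Filter.Eventually.of_forall (fun n => ?_)
      refine (ae_restrict_iff' measurableSet_Ioi).2 (Filter.Eventually.of_forall (fun x hx => ?_))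
      rw [Set.mem_Ioi] at hx
      rw [Real.norm_eq_abs, abs_abs, abs_mul, abs_mul]
      refine mul_le_mul_of_nonneg_right ?_ (abs_nonneg _)
      rw [abs_of_nonneg (Real.exp_pos _).le, abs_of_nonneg (Real.exp_pos _).le]
      refine Real.exp_le_exp.2 ?_
      have h3 : (0 : ℝ) ≤ (n : ℝ) * x := mul_nonneg (Nat.cast_nonneg n) hx.le
      linarith
    · exact (hu 1 one_pos).norm
    · refine (ae_restrict_iff' measurableSet_Ioi).2 (Filter.Eventually.of_forall (fun x hx => ?_))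
      rw [Set.mem_Ioi] at hx
      have h3 : Tendsto (fun n : ℕ => ((n : ℝ) + 1) * x) atTop atTop :=
        (tendsto_atTop_add_const_right _ _ tendsto_natCast_atTop_atTop).atTop_mul_const hx
      have h4 : Tendsto (fun n : ℕ => Real.exp (-(((n : ℝ) + 1) * x))) atTop (𝓝 0) :=
        Real.tendsto_exp_neg_atTop_nhds_zero.comp h3
      have h5 := (h4.mul_const (u x)).abs
      rw [zero_mul, abs_zero] at h5
      exact h5
  rw [integral_zero] at h1
  obtain ⟨n, hn⟩ := (h1.eventually (gt_mem_nhds one_pos)).exists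
  exact ⟨(n : ℝ) + 1, by positivity, hn⟩

/-- primitives -/
theorem hasDeriv_prim {F G : ℝ → ℝ} (hG : ContinuousOn G (Ioi 0))
    (hF : ∀ x, IntervalIntegrable F volume 0 x) (hae : ∀ᵐ x, 0 < x → F x = G x) {x : ℝ}
    (hx : 0 < x) : HasDerivAt (fun z => ∫ y in (0 : ℝ)..z, F y) (G x) x := by
  have hcongr : ∀ z : ℝ, 0 < z → ∀ᵐ y, y ∈ Set.uIoc 0 z → F y = G y := by
    intro z hz
    filter_upwards [hae] with y hy hy'
    rw [Set.uIoc_of_le hz.le] at hy'
    exact hy hy'.1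
  have h1 : (fun z => ∫ y in (0 : ℝ)..z, F y) =ᶠ[𝓝 x] fun z => ∫ y in (0 : ℝ)..z, G y := by
    filter_upwards [lt_mem_nhds hx] with z hz
    exact intervalIntegral.integral_congr_ae (hcongr z hz)
  have h2 : IntervalIntegrable G volume 0 x := by
    refine (hF x).congr_ae ?_
    exact (ae_restrict_iff' measurableSet_uIoc).2 (hcongr x hx)
  have h3 : HasDerivAt (fun z => ∫ y in (0 : ℝ)..z, G y) (G x) x :=
    intervalIntegral.integral_hasDerivAt_right h2
      (hG.stronglyMeasurableAtFilter isOpen_Ioi x hx) (hG.continuousAt (isOpen_Ioi.mem_nhds hx))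
  exact h3.congr_of_eventuallyEq h1

theorem cd_succ {f f' : ℝ → ℝ} (h : ∀ x, 0 < x → HasDerivAt f (f' x) x) (m : ℕ) :
    ContDiffOn ℝ (((m + 1 : ℕ) : ℕ∞) : WithTop ℕ∞) f (Ioi 0) ↔
      ContDiffOn ℝ (((m : ℕ) : ℕ∞) : WithTop ℕ∞) f' (Ioi 0) := by
  have h1 : (((m + 1 : ℕ) : ℕ∞) : WithTop ℕ∞) = (((m : ℕ) : ℕ∞) : WithTop ℕ∞) + 1 := by
    push_cast
    rfl
  rw [h1, contDiffOn_succ_iff_deriv_of_isOpen isOpen_Ioi]
  constructor
  · rintro ⟨-, -, h2⟩
    exact h2.congr (fun x hx => (h x hx).deriv.symm)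
  · intro h2
    refine ⟨fun x hx => (h x hx).differentiableAt.differentiableWithinAt, fun h3 => ?_,
      h2.congr (fun x hx => (h x hx).deriv)⟩
    exact absurd h3 (by simp)

theorem cd_aff {f g e : ℝ → ℝ} {n : WithTop ℕ∞} {b : ℝ} (he : ContDiff ℝ n e)
    (hf : ContDiffOn ℝ n f (Ioi 0)) (h : ∀ x, 0 < x → g x = e x * f x + b) :
    ContDiffOn ℝ n g (Ioi 0) := by
  have h1 : ContDiffOn ℝ n (fun x => e x * f x + b) (Ioi 0) :=
    (he.contDiffOn.mul hf).add contDiffOn_const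
  exact h1.congr (fun x hx => h x hx)

end Pool.Agent.W571.DO
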