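import Pool.Agent.W844.DO.Defs
set_option autoImplicit false

/-!
# Project DO: uniqueness of Laplace transforms
-/

open MeasureTheory Filter Topology Set ProbabilityTheory
open scoped ENNReal

namespace Pool.Agent.W571.DO

open Pool.Agent.W844.DO

/-- the measure with density the positive part of `v` -/
noncomputable def Rm (v : ℝ → ℝ) : Measure ℝ :=
  (volume.restrict (Ioi 0)).withDensity (fun x => ENNReal.ofReal (v x))

section
variable {v : ℝ → ℝ} (hm : AEMeasurable v (volume.restrict (Ioi 0)))
  (hi : ∀ t : ℝ, t < 1 → IntegrableOn (fun x => Real.exp (t * x) * v x) (Ioi 0))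
include hm hi

theorem Rm_int {t : ℝ} (ht : t < 1) : Integrable (fun x => Real.exp (t * x)) (Rm v) := by
  unfold Rm
  rw [integrable_withDensity_iff_integrable_smul₀' hm.ennreal_ofReal
    (Filter.Eventually.of_forall (fun x => ENNReal.ofReal_lt_top))]
  have hA : AEStronglyMeasurable (fun x => (ENNReal.ofReal (v x)).toReal)
      (volume.restrict (Ioi 0)) := hm.ennreal_ofReal.ennreal_toReal.aestronglyMeasurable
  have hB : AEStronglyMeasurable (fun x : ℝ => Real.exp (t * x)) (volume.restrict (Ioi 0)) :=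
    (by fun_prop : Continuous (fun x : ℝ => Real.exp (t * x))).aestronglyMeasurable
  have h1 : AEStronglyMeasurable (fun x => (ENNReal.ofReal (v x)).toReal • Real.exp (t * x))
      (volume.restrict (Ioi 0)) := hA.mul hB
  refine Integrable.mono (hi t ht) h1 (Filter.Eventually.of_forall (fun x => ?_))
  rw [smul_eq_mul, norm_mul, norm_mul, mul_comm]
  refine mul_le_mul_of_nonneg_left ?_ (norm_nonneg _)
  rw [Real.norm_eq_abs, Real.norm_eq_abs, abs_of_nonneg ENNReal.toReal_nonneg,
    ENNReal.toReal_ofReal']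
  exact max_le (le_abs_self _) (abs_nonneg _)

theorem Rm_fin : IsFiniteMeasure (Rm v) := by
  have h1 := Rm_int hm hi (t := 0) (by norm_num)
  simp only [zero_mul, Real.exp_zero] at h1
  rw [integrable_const_iff] at h1
  rcases h1 with h1 | h1
  · exact absurd h1 one_ne_zero
  · exact h1

theorem Rm_mgf {t : ℝ} :
    ∫ x, Real.exp (t * x) ∂(Rm v) = ∫ x in Ioi (0 : ℝ), Real.exp (t * x) * max (v x) 0 := by
  unfold Rm
  rw [integral_withDensity_eq_integral_toReal_smul₀ hm.ennreal_ofReal
    (Filter.Eventually.of_forall (fun x => ENNReal.ofReal_lt_top))]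
  refine integral_congr_ae (Filter.Eventually.of_forall (fun x => ?_))
  change (ENNReal.ofReal (v x)).toReal • Real.exp (t * x) = _
  rw [ENNReal.toReal_ofReal', smul_eq_mul, mul_comm]

theorem Rm_posint {t : ℝ} (ht : t < 1) :
    IntegrableOn (fun x => Real.exp (t * x) * max (v x) 0) (Ioi 0) := by
  have h1 := Rm_int hm hi ht
  unfold Rm at h1
  rw [integrable_withDensity_iff_integrable_smul₀' hm.ennreal_ofReal
    (Filter.Eventually.of_forall (fun x => ENNReal.ofReal_lt_top))] at h1
  refine h1.congr (Filter.Eventually.of_forall (fun x => ?_))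
  change (ENNReal.ofReal (v x)).toReal • Real.exp (t * x) = _
  rw [ENNReal.toReal_ofReal', smul_eq_mul, mul_comm]

theorem Rm_set : Iio (1 : ℝ) ⊆ interior (integrableExpSet id (Rm v)) := by
  refine interior_maximal ?_ isOpen_Iio
  intro t ht
  exact Rm_int hm hi ht

theorem Rm_ana : AnalyticOnNhd ℂ (complexMGF id (Rm v)) {z : ℂ | z.re < 1} :=
  analyticOnNhd_complexMGF.mono (fun z hz => Rm_set hm hi hz)

end

theorem Rm_real {v : ℝ → ℝ} (t : ℝ) :
    complexMGF id (Rm v) (t : ℂ) = ((∫ x, Real.exp (t * x) ∂(Rm v) : ℝ) : ℂ) := by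
  rw [complexMGF_ofReal]
  rfl

/-- uniqueness -/
theorem uniq {u : ℝ → ℝ} (hm : AEMeasurable u (volume.restrict (Ioi 0)))
    (hi : ∀ t : ℝ, t < 1 → IntegrableOn (fun x => Real.exp (t * x) * u x) (Ioi 0))
    (h0 : ∀ t : ℝ, t < 1 → ∫ x in Ioi (0 : ℝ), Real.exp (t * x) * u x = 0) :
    u =ᵐ[volume.restrict (Ioi 0)] 0 := by
  have hm' : AEMeasurable (fun x => -u x) (volume.restrict (Ioi 0)) := hm.neg
  have hi' : ∀ t : ℝ, t < 1 → IntegrableOn (fun x => Real.exp (t * x) * -u x) (Ioi 0) := by
    intro t ht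
    have h1 := (hi t ht).neg
    refine h1.congr (Filter.Eventually.of_forall (fun x => ?_))
    change -(Real.exp (t * x) * u x) = Real.exp (t * x) * -u x
    ring
  have := Rm_fin hm hi
  have := Rm_fin hm' hi'
  have hreal : ∀ t : ℝ, t < 1 → complexMGF id (Rm u) (t : ℂ) =
      complexMGF id (Rm fun x => -u x) (t : ℂ) := by
    intro t ht
    rw [Rm_real, Rm_real, Rm_mgf hm hi, Rm_mgf hm' hi']
    congr 1
    rw [← sub_eq_zero, ← integral_sub (Rm_posint hm hi ht) (Rm_posint hm' hi' ht)]
    refine Eq.trans ?_ (h0 t ht)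
    refine integral_congr_ae (Filter.Eventually.of_forall (fun x => ?_))
    change Real.exp (t * x) * max (u x) 0 - Real.exp (t * x) * max (-u x) 0 = _
    rw [← mul_sub]
    congr 1
    rcases le_total (u x) 0 with h | h
    · rw [max_eq_right h, max_eq_left (by linarith)]
      ring
    · rw [max_eq_left h, max_eq_right (by linarith)]
      ring
  have hEq : EqOn (complexMGF id (Rm u)) (complexMGF id (Rm fun x => -u x))
      {z : ℂ | z.re < 1} := by
    refine (Rm_ana hm hi).eqOn_of_preconnected_of_frequently_eq (Rm_ana hm' hi') (z₀ := 0)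
      ?_ ?_ ?_
    · exact (convex_halfSpace_re_lt 1).isPreconnected
    · change (0 : ℂ).re < 1
      simp
    · have h1 : Tendsto (fun n : ℕ => ((-(1 / ((n : ℝ) + 1)) : ℝ) : ℂ)) atTop (𝓝[≠] 0) := by
        refine tendsto_nhdsWithin_iff.2 ⟨?_, ?_⟩
        · have h2 : Tendsto (fun n : ℕ => -(1 / ((n : ℝ) + 1))) atTop (𝓝 (-0)) :=
            tendsto_one_div_add_atTop_nhds_zero_nat.neg
          rw [neg_zero] at h2
          have h3 := (Complex.continuous_ofReal.tendsto 0).comp h2
          rw [Complex.ofReal_zero] at h3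
          exact h3
        · refine Filter.Eventually.of_forall (fun n => ?_)
          simp only [Set.mem_compl_iff, Set.mem_singleton_iff, Complex.ofReal_eq_zero, neg_eq_zero]
          positivity
      refine h1.frequently (Filter.Eventually.frequently (Filter.Eventually.of_forall
        (fun n => hreal _ ?_)))
      have : (0 : ℝ) ≤ 1 / ((n : ℝ) + 1) := by positivity
      linarith
  have hP : Rm u = Rm fun x => -u x := by
    refine Measure.ext_of_charFun ?_
    funext t
    rw [← complexMGF_id_mul_I, ← complexMGF_id_mul_I]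
    refine hEq ?_
    change ((t : ℂ) * Complex.I).re < 1
    simp
  have hfin : ∫⁻ x in Ioi (0 : ℝ), ENNReal.ofReal (u x) ≠ ⊤ := by
    have h1 : Rm u Set.univ ≠ ⊤ := measure_ne_top _ _
    unfold Rm at h1
    rw [withDensity_apply _ MeasurableSet.univ, Measure.restrict_univ] at h1
    exact h1
  have h2 := (withDensity_eq_iff hm.ennreal_ofReal hm'.ennreal_ofReal hfin).1 hP
  refine h2.mono (fun x hx => ?_)
  have h3 : ENNReal.ofReal (u x) = ENNReal.ofReal (-u x) := hx
  have h4 := congrArg ENNReal.toReal h3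
  rw [ENNReal.toReal_ofReal', ENNReal.toReal_ofReal'] at h4
  change u x = 0
  rcases le_total (u x) 0 with h | h
  · rw [max_eq_right h, max_eq_left (by linarith)] at h4
    linarith
  · rw [max_eq_left h, max_eq_right (by linarith)] at h4
    exact h4

/-- uniqueness of Laplace transforms -/
theorem lt : S_LT := by
  rintro f g hf hg ⟨β₀, hβ⟩ x hx
  have hexp : Continuous (fun x : ℝ => Real.exp (-((β₀ + 1) * x))) := by fun_prop
  have hc : ContinuousOn (fun x : ℝ => Real.exp (-((β₀ + 1) * x)) * (f x - g x)) (Ioi 0) :=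
    hexp.continuousOn.mul (hf.sub hg)
  have hkey : ∀ t : ℝ, (fun x : ℝ => Real.exp (t * x) *
      (Real.exp (-((β₀ + 1) * x)) * (f x - g x))) =
      fun x => Real.exp (-((β₀ + 1 - t) * x)) * f x - Real.exp (-((β₀ + 1 - t) * x)) * g x := by
    intro t
    funext x
    have h1 : Real.exp (-((β₀ + 1 - t) * x)) = Real.exp (t * x) * Real.exp (-((β₀ + 1) * x)) := by
      rw [← Real.exp_add]
      congr 1
      ring
    rw [h1]
    ring
  have h1 := uniq (hc.aemeasurable measurableSet_Ioi) (by
      intro t ht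
      obtain ⟨h1, h2, -⟩ := hβ (β₀ + 1 - t) (by linarith)
      rw [hkey t]
      exact h1.sub h2) (by
      intro t ht
      obtain ⟨h1, h2, h3⟩ := hβ (β₀ + 1 - t) (by linarith)
      rw [hkey t, integral_sub h1 h2, h3, sub_self])
  have h2 : EqOn (fun x : ℝ => Real.exp (-((β₀ + 1) * x)) * (f x - g x)) 0 (Ioi 0) :=
    Measure.eqOn_open_of_ae_eq h1 isOpen_Ioi hc continuousOn_const
  have h3 := h2 hx
  have h4 : Real.exp (-((β₀ + 1) * x)) * (f x - g x) = 0 := h3
  rcases mul_eq_zero.1 h4 with h5 | h5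
  · exact absurd h5 (Real.exp_pos _).ne'
  · linarith

end Pool.Agent.W571.DO
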